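import Pool.Agent.Helper70.GUM.St1

/-!
Project GUM, MODULE KEY: Fourier inversion on the space `Fun`
-/

set_option autoImplicit false

namespace Pool.Agent.Helper19.GUM

open Pool.Agent.Helper70.GUM Module OG UN
open scoped Classical

universe u v w z

section

variable {k F : Type*} [Field k] [Field F] [Algebra k F] {σ : F ≃ₐ[k] F} {hσ : QE σ}

private theorem cen_mul_a {y : F} (hy : y + σ y = 0) (g : Hei hσ) : (cen hσ y * g).a = g.a := by
  rw [Hei.mul_a, cen_a hy, zero_add]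

private theorem cen_mul_c {y : F} (hy : y + σ y = 0) (g : Hei hσ) :
    (cen hσ y * g).c = y + g.c := by
  rw [Hei.mul_c, cen_a hy, cen_c hy, map_zero, mul_zero, add_zero]

/-- sections for different elements of trace one -/
private theorem sc_eq {ε ε' : F} (hε : ε + σ ε = 1) (hε' : ε' + σ ε' = 1) (a : F)
    (h0 : (ε' - ε) * (a * σ a) + σ ((ε' - ε) * (a * σ a)) = 0) :
    sc hσ ε' a = cen hσ ((ε' - ε) * (a * σ a)) * sc hσ ε a := by
  apply Hei.ext
  · rw [cen_mul_a h0, sc_a hε, sc_a hε']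
  · rw [cen_mul_c h0, sc_c hε, sc_c hε']
    ring

private theorem tr0_mul {y : F} (hσ : QE σ) (hy : y + σ y = 0) (a : F) :
    y * (a * σ a) + σ (y * (a * σ a)) = 0 := by
  rw [map_mul, map_mul, hσ.inv a]
  linear_combination (a * σ a) * hy

private theorem tr0_sub {ε ε' : F} (hε : ε + σ ε = 1) (hε' : ε' + σ ε' = 1) :
    (ε' - ε) + σ (ε' - ε) = 0 := by
  rw [map_sub]
  linear_combination hε' - hε

/-- the commutator pairing -/
private def kap (σ : F ≃ₐ[k] F) (b a : F) : F := a * σ b - b * σ a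

private theorem kap_tr (hσ : QE σ) (b a : F) : kap σ b a + σ (kap σ b a) = 0 := by
  unfold kap
  rw [map_sub, map_mul, map_mul, hσ.inv a, hσ.inv b]
  ring

private theorem sc_comm {ε : F} (hε : ε + σ ε = 1) (b a : F) :
    sc hσ ε b * sc hσ ε a = cen hσ (kap σ b a) * (sc hσ ε a * sc hσ ε b) := by
  apply Hei.ext
  · rw [cen_mul_a (kap_tr hσ b a), Hei.mul_a, Hei.mul_a, add_comm]
  · rw [cen_mul_c (kap_tr hσ b a), Hei.mul_c, Hei.mul_c, sc_a hε, sc_a hε, sc_c hε, sc_c hε]
    unfold kap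
    ring

end

theorem hKEY : StKEY.{u, v, w, z} := by
  intro k F R K _ _ _ _ _ σ _ _ _ _ _ hσ χ r x hC hS hB hP
  set q : ℕ := Nat.card k with hq
  have hq1 : 1 ≤ q := le_trans one_le_two hS.two
  have he1 : ep x 1 + σ (ep x 1) = 1 := hS.tr1 1 le_rfl hq1
  set e : F := ep x 1 with he
  -- the coefficients
  let ze : F → R := fun a => -(r * ∑ j ∈ Finset.Icc 1 q, (j : R) * χ ((ep x j - e) * (a * σ a)))
  -- the operator `Z'`
  have hZ : ∀ f ∈ Fun R K hσ χ, ZZ q (XL r e) f = ∑ a : F, ze a • Lt R (sc hσ e a) f := by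
    intro f hf
    have h1 : ZZ q (XL r e) f = ∑ j ∈ Finset.Icc 1 q, (j : R) • ((XL (K := K) (hσ := hσ) r e) ^ j) f := by
      unfold ZZ
      rw [LinearMap.sum_apply, Finset.range_eq_Ico, Finset.sum_eq_sum_Ico_succ_bot (by omega)]
      rw [Nat.cast_zero, zero_smul, LinearMap.zero_apply, zero_add]
      refine Finset.sum_congr ?_ (fun j _ => rfl)
      ext j
      rw [Finset.mem_Ico, Finset.mem_Icc]
      omega
    have h2 : ∀ j ∈ Finset.Icc 1 q, (j : R) • ((XL (K := K) (hσ := hσ) r e) ^ j) f =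
        ∑ a : F, (-(r * ((j : R) * χ ((ep x j - e) * (a * σ a))))) • Lt R (sc hσ e a) f := by
      intro j hj
      rw [Finset.mem_Icc] at hj
      have t1 := hS.tr1 j hj.1 hj.2
      rw [hP.pw f hf j hj.1 hj.2, hB.xlsum, smul_neg, Finset.smul_sum, Finset.smul_sum,
        ← Finset.sum_neg_distrib]
      refine Finset.sum_congr rfl ?_
      intro a _
      have t2 := tr0_mul hσ (tr0_sub he1 t1) a
      rw [sc_eq he1 t1 a t2, hB.ltmul, hB.ltcen _ (hB.ltF _ f hf) _ t2]
      module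
    rw [h1, Finset.sum_congr rfl h2, Finset.sum_comm]
    refine Finset.sum_congr rfl ?_
    intro a _
    rw [← Finset.sum_smul]
    congr 1
    rw [Finset.sum_neg_distrib, ← Finset.mul_sum]
  -- conjugation
  have hconj : ∀ (a0 : F), ∀ f ∈ Fun R K hσ χ,
      ∑ b : F, χ (-kap σ b a0) • Lt R (sc hσ e b) (ZZ q (XL r e) (Lt R ((sc hσ e b)⁻¹) f)) =
      ((q : R) ^ 2 * ze a0) • Lt R (sc hσ e a0) f := by
    intro a0 f hf
    have h1 : ∀ b : F, χ (-kap σ b a0) •
        Lt R (sc hσ e b) (ZZ q (XL r e) (Lt R ((sc hσ e b)⁻¹) f)) =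
        ∑ a : F, (ze a * χ ((a - a0) * σ b - b * σ (a - a0))) • Lt R (sc hσ e a) f := by
      intro b
      rw [hZ _ (hB.ltF _ f hf), map_sum, Finset.smul_sum]
      refine Finset.sum_congr rfl ?_
      intro a _
      rw [map_smul, ← hB.ltmul, ← hB.ltmul, sc_comm he1 b a, mul_assoc, mul_assoc, mul_inv_cancel,
        mul_one, hB.ltmul, hB.ltcen _ (hB.ltF _ f hf) _ (kap_tr hσ b a)]
      have h2 : χ ((a - a0) * σ b - b * σ (a - a0)) = χ (-kap σ b a0) * χ (kap σ b a) := by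
        rw [← AddChar.map_add_eq_mul]
        congr 1
        unfold kap
        rw [map_sub]
        ring
      rw [h2, smul_smul, smul_smul]
      congr 1
      ring
    rw [Finset.sum_congr rfl (fun b _ => h1 b), Finset.sum_comm]
    have h3 : ∀ a : F, a ≠ a0 → ∑ b : F, (ze a * χ ((a - a0) * σ b - b * σ (a - a0))) •
        Lt R (sc hσ e a) f = 0 := by
      intro a ha
      rw [← Finset.sum_smul, ← Finset.mul_sum, hS.sw (a - a0) (sub_ne_zero.2 ha), mul_zero, zero_smul]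
    rw [Finset.sum_eq_single a0 (fun a _ ha => h3 a ha) (fun h => absurd (Finset.mem_univ a0) h)]
    rw [← Finset.sum_smul]
    congr 1
    rw [← Finset.mul_sum]
    have h4 : ∑ b : F, χ ((a0 - a0) * σ b - b * σ (a0 - a0)) = (q : R) ^ 2 := by
      have h5 : ∀ b : F, χ ((a0 - a0) * σ b - b * σ (a0 - a0)) = 1 := by
        intro b
        rw [sub_self, map_zero, zero_mul, mul_zero, sub_zero, AddChar.map_zero_eq_one]
      rw [Finset.sum_congr rfl (fun b _ => h5 b), Finset.sum_const, Finset.card_univ, hS.cardF,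
        nsmul_eq_mul, mul_one, Nat.cast_pow]
    rw [h4, mul_comm]
  -- a unit among the coefficients
  have hunit : ∃ a0 : F, IsUnit (ze a0) := by
    by_contra hno
    push Not at hno
    have hn : ∀ n : k, ∃ a : F, a * σ a = algebraMap k F n := fun n => hσ.nrm n
    choose an han using hn
    have hsum : ∑ n : k, ze (an n) = -1 := by
      have h1 : ∀ n : k, ze (an n) = -(r * ∑ j ∈ Finset.Icc 1 q, (j : R) *
          χ ((ep x j - e) * algebraMap k F n)) := by
        intro n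
        simp only [ze, han n]
      rw [Finset.sum_congr rfl (fun n _ => h1 n), Finset.sum_neg_distrib, ← Finset.mul_sum,
        Finset.sum_comm]
      have h2 : ∀ j ∈ Finset.Icc 1 q, j ≠ 1 → ∑ n : k, (j : R) *
          χ ((ep x j - e) * algebraMap k F n) = 0 := by
        intro j hj hj1
        rw [Finset.mem_Icc] at hj
        rw [← Finset.mul_sum, hS.sk _ (tr0_sub he1 (hS.tr1 j hj.1 hj.2)), mul_zero]
        intro h0
        exact hj1 (hS.inj j 1 hj.1 hj.2 le_rfl hq1 (sub_eq_zero.1 h0))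
      rw [Finset.sum_eq_single 1 h2 (fun h => absurd (Finset.mem_Icc.2 ⟨le_rfl, hq1⟩) h)]
      have h3 : ∀ n : k, ((1 : ℕ) : R) * χ ((ep x 1 - e) * algebraMap k F n) = 1 := by
        intro n
        rw [← he, sub_self, zero_mul, AddChar.map_zero_eq_one, Nat.cast_one, mul_one]
      rw [Finset.sum_congr rfl (fun n _ => h3 n), Finset.sum_const, Finset.card_univ, nsmul_eq_mul,
        mul_one, ← Nat.card_eq_fintype_card, ← hq, hC.inv]
    have hmem : ∑ n : k, ze (an n) ∈ IsLocalRing.maximalIdeal R :=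
      Ideal.sum_mem _ (fun n _ => (IsLocalRing.mem_maximalIdeal _).2 (hno (an n)))
    rw [hsum] at hmem
    exact (IsLocalRing.mem_maximalIdeal _).1 hmem isUnit_one.neg
  obtain ⟨a0, ha0⟩ := hunit
  have hqu : IsUnit ((q : R) ^ 2 * ze a0) := by
    refine IsUnit.mul (IsUnit.pow 2 ?_) ha0
    exact IsUnit.of_mul_eq_one r (by rw [mul_comm]; exact hC.inv)
  obtain ⟨cu, hcu⟩ := hqu
  refine ⟨fun b => ((cu⁻¹ : Rˣ) : R) * χ (-kap σ b a0), fun b => (sc hσ e a0)⁻¹ * sc hσ e b,
    fun b => (sc hσ e b)⁻¹, ?_⟩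
  intro f hf
  have h1 := hconj a0 f hf
  have h2 : f = Lt R ((sc hσ e a0)⁻¹) (Lt R (sc hσ e a0) f) := by
    rw [← hB.ltmul, inv_mul_cancel]
    funext g
    rw [Lt_apply, inv_one, one_mul]
  have h3 : Lt R (sc hσ e a0) f = ((cu⁻¹ : Rˣ) : R) • (((q : R) ^ 2 * ze a0) • Lt R (sc hσ e a0) f) := by
    rw [smul_smul, ← hcu, Units.inv_mul, one_smul]
  rw [← h1] at h3
  have h4 : f = Lt R ((sc hσ e a0)⁻¹) (((cu⁻¹ : Rˣ) : R) • ∑ b : F, χ (-kap σ b a0) •
      Lt R (sc hσ e b) (ZZ q (XL r e) (Lt R ((sc hσ e b)⁻¹) f))) := by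
    rw [← h3]
    exact h2
  refine h4.trans ?_
  rw [map_smul, map_sum, Finset.smul_sum]
  refine Finset.sum_congr rfl ?_
  intro b _
  rw [map_smul, smul_smul, ← hB.ltmul]

end Pool.Agent.Helper19.GUM
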